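import Pool.Agent.Q145.SZ.All
import Pool.Agent.Q145.TS.Sets

set_option autoImplicit false
set_option maxHeartbeats 4000000

/-!
# Almost all admissible sets with many elements below `x ^ (1 - δ)`

For almost all admissible sets `A` of `k` integers in `[0, x ^ (1 - δ)]` some `n ≤ x` makes all the
`n + a`, `a ∈ A`, prime; in fact at least `(1 - ε) 𝔖(A) x ^ (1 - δ) / log ^ k x` positive integers `n ≤ x` do:

* for arbitrarily large `x` and all `k ≤ c (1 - δ) log x / log log x`, which contains the range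
  `k ≤ (log x) ^ (1 - δ)`;
* for every large `x` and all `k ≤ M log log x`;
* for every large `x` and all `k ≤ c (1 - δ) log x / log log x`, unless there is an exceptional zero.
-/

namespace Pool.Agent.Results.MP_f686a1_nt.AlmostAllSets

open Finset Filter

open scoped Classical

/-- The number of residue classes modulo `p` met by `A`. -/
def classes (A : Finset ℕ) (p : ℕ) : ℕ := (A.image (· % p)).card

/-- `A` does not meet all the residue classes modulo any prime. -/
def Admissible (A : Finset ℕ) : Prop := ∀ p : ℕ, p.Prime → classes A p < p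

/-- The partial products (primes up to `w`) of the singular series of `A`. -/
noncomputable def partialSeries (A : Finset ℕ) (w : ℕ) : ℝ :=
  ∏ p ∈ (Icc 1 w).filter Nat.Prime, (1 - (classes A p : ℝ) / p) / (1 - 1 / (p : ℝ)) ^ A.card

/-- The singular series of `A`: the limit of the partial products. -/
noncomputable def series (A : Finset ℕ) : ℝ := limUnder atTop (partialSeries A)

/-- The number of positive integers `n ≤ x` for which all the `n + a`, `a ∈ A`, are prime. -/
noncomputable def count (x : ℝ) (A : Finset ℕ) : ℕ := ((Icc 1 ⌊x⌋₊).filter fun n => ∀ a ∈ A, (n + a).Prime).card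

/-- The admissible sets of `k` integers `0 ≤ a ≤ y`. -/
noncomputable def sets (y : ℝ) (k : ℕ) : Finset (Finset ℕ) := ((range (⌊y⌋₊ + 1)).powersetCard k).filter Admissible

/-- All but a proportion at most `ε` of the admissible sets `A` of `k` integers in `[0, x ^ (1 - δ)]` have
at least `(1 - ε) 𝔖(A) x ^ (1 - δ) / log ^ k x` positive integers `n ≤ x` with all `n + a` prime. -/
def Typical (δ ε x : ℝ) (k : ℕ) : Prop :=
  (((sets (x ^ (1 - δ)) k).filter fun A =>
    ¬ ((1 - ε) * (series A * x ^ (1 - δ)) ≤ count x A * Real.log x ^ k)).card : ℝ) ≤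
      ε * (sets (x ^ (1 - δ)) k).card

/-- There is no exceptional zero at the scale `x`: the real zeros `β` of the primitive quadratic
characters of conductor `1 < r ≤ exp (log x / log log x)` are at most `1 - C log log x / log x`. -/
def NoExceptionalZero (C x : ℝ) : Prop :=
  ∀ (r : ℕ) [NeZero r], 1 < r → (r : ℝ) ≤ Real.exp (Real.log x / Real.log (Real.log x)) →
    ∀ χ : DirichletCharacter ℂ r, χ.IsPrimitive → χ ^ 2 = 1 → ∀ β : ℝ, χ.LFunction β = 0 →
      β ≤ 1 - C * (Real.log (Real.log x) / Real.log x)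

open Pool.Agent.Q145.SZ Pool.Agent.Q145.TS

theorem partial_succ (A : Finset ℕ) : partialSeries (A.image (· + 1)) = partialSeries A := by
  funext w
  unfold partialSeries
  rw [card_image_of_injective _ (add_left_injective 1)]
  refine prod_congr rfl fun p hp => ?_
  have : classes (A.image (· + 1)) p = classes A p := cl_succ A (mem_filter.1 hp).2.pos
  rw [this]

theorem series_succ (A : Finset ℕ) : series (A.image (· + 1)) = series A := by
  unfold series
  rw [partial_succ]

theorem partial_image {k : ℕ} (s : Fin k → ℕ) (hs : Function.Injective s) : partialSeries (univ.image s) = singP s := by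
  funext w
  unfold partialSeries singP loc
  rw [card_image_of_injective _ hs, card_univ, Fintype.card_fin]
  refine prod_congr rfl fun p _ => ?_
  rw [nu_image]
  rfl

theorem series_image {k : ℕ} (s : Fin k → ℕ) (hs : Function.Injective s) : series (univ.image s) = sing s := by
  unfold series sing
  rw [partial_image s hs]

theorem conv (A : Finset ℕ) (hA : Admissible A) : Tendsto (partialSeries A) atTop (nhds (series A)) ∧ 0 < series A := by
  set e := A.equivFin.symm
  have hs : Function.Injective fun i => (e i : ℕ) + 1 := fun i j h => e.injective (Subtype.ext (by simpa using h))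
  have him : univ.image (fun i => (e i : ℕ) + 1) = A.image (· + 1) := by
    ext b
    simp only [mem_image, mem_univ, true_and]
    constructor
    · rintro ⟨i, rfl⟩
      exact ⟨e i, (e i).2, rfl⟩
    · rintro ⟨a, ha, rfl⟩
      exact ⟨e.symm ⟨a, ha⟩, by simp⟩
  have h := series_conv A.card (fun i => (e i : ℕ) + 1) hs (fun i => by omega) (by
    rw [adm_image, him, adm_succ]
    exact hA)
  rw [← partial_image _ hs, ← series_image _ hs, him, partial_succ, series_succ] at h
  exact h

theorem typical_of {δ ε x : ℝ} {k : ℕ} (hε : 0 < ε) (hε1 : ε < 1) (hx1 : 1 ≤ x)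
    (hx3 : (2 * ⌊x ^ (1 - δ)⌋₊ + 3 : ℕ) ≤ x)
    (hW : 2 * (k ^ 2 + 1) ≤ (⌊x ^ (1 - δ)⌋₊ + 1) / PW k) (h : HLK (⌊x ^ (1 - δ)⌋₊ + 1) k (ε / 2)) : Typical δ ε x k := by
  set H : ℕ := ⌊x ^ (1 - δ)⌋₊ with hH
  set X : ℕ := H + 1 with hX
  have hXr : x ^ (1 - δ) ≤ X := by
    rw [hX]
    push_cast
    exact (Nat.lt_floor_add_one _).le
  have hy0 : 0 ≤ x ^ (1 - δ) := Real.rpow_nonneg (by linarith) _
  have hXx : (X : ℝ) ≤ x := by
    refine le_trans ?_ hx3
    exact_mod_cast (by omega : X ≤ 2 * H + 3)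
  have hX1 : (1 : ℝ) ≤ X := by exact_mod_cast (by omega : 1 ≤ X)
  have hlX : 0 ≤ Real.log X := Real.log_nonneg hX1
  have hlXx : Real.log X ≤ Real.log x := Real.log_le_log (by linarith) hXx
  set P : Finset ℕ → Prop := fun B => ¬ ((1 - ε) * (series B * x ^ (1 - δ)) ≤
    (((Ioc X (2 * X)).filter fun n => ∀ b ∈ B, (n + b).Prime).card : ℝ) * Real.log x ^ k) with hP
  have hIT : (((IT X k).filter fun s => P (univ.image s)).card : ℝ) ≤ ε / 2 * (AT X k).card := by
    refine le_trans ?_ h
    unfold IT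
    rw [filter_filter]
    have : ((AT X k).filter fun s => Function.Injective s ∧ P (univ.image s)) ⊆
        (AT X k).filter fun s => ¬ (|cnt X s * Real.log X ^ k - sing s * X| ≤ ε / 2 * (sing s * X)) := by
      intro s hs
      rw [mem_filter] at hs ⊢
      refine ⟨hs.1, fun hHL => hs.2.2 ?_⟩
      obtain ⟨hsA, hsi, -⟩ := hs
      rw [mem_AT] at hsA
      have hpos := (series_conv k s hsi (fun i => (hsA.1 i).1) hsA.2).2
      have hc : (((Ioc X (2 * X)).filter fun n => ∀ b ∈ univ.image s, (n + b).Prime).card : ℝ) = cnt X s := by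
        unfold cnt
        congr 2
        ext n
        simp
      rw [hc, series_image s hsi]
      have h1 := (abs_le.1 hHL).1
      have h2 : (cnt X s : ℝ) * Real.log X ^ k ≤ cnt X s * Real.log x ^ k :=
        mul_le_mul_of_nonneg_left (pow_le_pow_left₀ hlX hlXx k) (Nat.cast_nonneg _)
      have h3 : sing s * x ^ (1 - δ) ≤ sing s * X := mul_le_mul_of_nonneg_left hXr hpos.le
      have h4 : 0 ≤ sing s * X := by positivity
      have h5 : (1 - ε) * (sing s * x ^ (1 - δ)) ≤ (1 - ε) * (sing s * X) := mul_le_mul_of_nonneg_left h3 (by linarith)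
      nlinarith
    exact_mod_cast card_le_card this
  have key := transfer (ε := ε / 2) P hW (by convert hIT) (by linarith)
  have e1 : (SS X k).card = (S0 H k).card := by
    have := shift H k (fun _ => True)
    simp only [filter_true] at this
    exact this.symm
  rw [← shift H k P, e1] at key
  have e2 : 2 * (ε / 2) = ε := by ring
  rw [e2] at key
  unfold Typical
  have e3 : sets (x ^ (1 - δ)) k = S0 H k := rfl
  rw [e3]
  refine le_trans ?_ key
  have : ((S0 H k).filter fun A => ¬ ((1 - ε) * (series A * x ^ (1 - δ)) ≤ count x A * Real.log x ^ k)) ⊆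
      (S0 H k).filter fun A => P (A.image (· + 1)) := by
    intro A hA
    rw [mem_filter] at hA ⊢
    refine ⟨hA.1, fun hcon => hA.2 ?_⟩
    rw [series_succ] at hcon
    refine hcon.trans (mul_le_mul_of_nonneg_right ?_ (pow_nonneg (hlX.trans hlXx) k))
    have hle : ((Ioc X (2 * X)).filter fun n => ∀ b ∈ A.image (· + 1), (n + b).Prime).card ≤ count x A := by
      unfold count
      apply card_le_card_of_injOn (fun n => n + 1)
      · intro n hn
        simp only [mem_coe, mem_filter, mem_Ioc, mem_Icc] at hn ⊢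
        refine ⟨⟨by omega, ?_⟩, fun a ha => ?_⟩
        · apply Nat.le_floor
          refine le_trans ?_ hx3
          exact_mod_cast (by omega : n + 1 ≤ 2 * H + 3)
        · have := hn.2 (a + 1) (mem_image_of_mem _ ha)
          rwa [show n + (a + 1) = n + 1 + a by ring] at this
      · exact (add_left_injective 1).injOn
    refine Nat.cast_le.2 ?_
    convert hle
  refine Nat.cast_le.2 ?_
  convert card_le_card this

/-- the scale -/
noncomputable def sc (δ x : ℝ) : ℕ := ⌊x ^ (1 - δ)⌋₊ + 1

theorem sc_tendsto {δ : ℝ} (hδ1 : δ < 1) : Tendsto (sc δ) atTop atTop :=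
  (tendsto_add_atTop_nat 1).comp (tendsto_nat_floor_atTop.comp (tendsto_rpow_atTop (by linarith)))

theorem sc_facts {δ : ℝ} (hδ : 0 < δ) (hδ1 : δ < 1) : ∀ᶠ x : ℝ in atTop, 1 ≤ x ∧ ((2 * ⌊x ^ (1 - δ)⌋₊ + 3 : ℕ) : ℝ) ≤ x ∧
    (1 - δ) * Real.log x ≤ Real.log (sc δ x) ∧ Real.log (sc δ x) ≤ Real.log x ∧ Real.exp 1 ≤ Real.log (sc δ x) ∧
    Real.log (Real.log x) ≤ 2 * Real.log (Real.log (sc δ x)) := by
  have h1 : Tendsto (fun x : ℝ => Real.log (sc δ x)) atTop atTop :=
    Real.tendsto_log_atTop.comp (tendsto_natCast_atTop_atTop.comp (sc_tendsto hδ1))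
  have h2 : ∀ᶠ x : ℝ in atTop, 5 * x ^ (1 - δ) ≤ x := by
    have h3 : Tendsto (fun x : ℝ => x ^ δ) atTop atTop := tendsto_rpow_atTop hδ
    filter_upwards [h3.eventually_ge_atTop 5, eventually_gt_atTop 0] with x hx hx0
    have h4 : x = x ^ δ * x ^ (1 - δ) := by
      rw [← Real.rpow_add hx0]
      simp
    have h5 : 0 ≤ x ^ (1 - δ) := Real.rpow_nonneg hx0.le _
    calc 5 * x ^ (1 - δ) ≤ x ^ δ * x ^ (1 - δ) := mul_le_mul_of_nonneg_right hx h5
      _ = x := h4.symm
  filter_upwards [h1.eventually_ge_atTop (Real.exp 1), h2, eventually_ge_atTop 1,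
    Real.tendsto_log_atTop.eventually_ge_atTop (1 / (1 - δ) ^ 2 + 1)] with x hx h2 hx1 hlx
  have hd : 0 < 1 - δ := by linarith
  have hy : 1 ≤ x ^ (1 - δ) := Real.one_le_rpow hx1 hd.le
  have hfl : ((⌊x ^ (1 - δ)⌋₊ : ℕ) : ℝ) ≤ x ^ (1 - δ) := Nat.floor_le (by linarith)
  have hx3 : ((2 * ⌊x ^ (1 - δ)⌋₊ + 3 : ℕ) : ℝ) ≤ x := by
    push_cast
    linarith
  have hscx : ((sc δ x : ℕ) : ℝ) ≤ x := by
    unfold sc
    push_cast
    linarith
  have hsc1 : (1 : ℝ) ≤ (sc δ x : ℕ) := by
    unfold sc
    push_cast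
    linarith [Nat.cast_nonneg (α := ℝ) ⌊x ^ (1 - δ)⌋₊]
  have hlow : (1 - δ) * Real.log x ≤ Real.log (sc δ x) := by
    rw [← Real.log_rpow (by linarith)]
    apply Real.log_le_log (by linarith)
    unfold sc
    push_cast
    exact (Nat.lt_floor_add_one _).le
  refine ⟨hx1, hx3, hlow, Real.log_le_log (by linarith) hscx, hx, ?_⟩
  have he : (1 : ℝ) ≤ Real.exp 1 := Real.one_le_exp (by norm_num)
  have hl0 : 0 < Real.log (sc δ x) := by linarith
  rw [show (2 : ℝ) * Real.log (Real.log (sc δ x)) = Real.log (Real.log (sc δ x) ^ 2) by rw [Real.log_pow]; norm_num]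
  have hdd : 0 < (1 - δ) ^ 2 := by positivity
  have hlx0 : 0 < Real.log x := by
    have : 0 < 1 / (1 - δ) ^ 2 := by positivity
    linarith
  apply Real.log_le_log hlx0
  have h4 : 1 / (1 - δ) ^ 2 ≤ Real.log x := by linarith
  rw [div_le_iff₀ hdd] at h4
  have h5 : ((1 - δ) * Real.log x) ^ 2 ≤ Real.log (sc δ x) ^ 2 := pow_le_pow_left₀ (by positivity) hlow 2
  nlinarith

theorem W_facts : ∀ᶠ X : ℕ in atTop, ∀ k : ℕ, (k : ℝ) ≤ Real.log X / 3 → 2 * (k ^ 2 + 1) ≤ X / PW k := by
  have h1 : Tendsto (fun X : ℕ => Real.log X) atTop atTop := Real.tendsto_log_atTop.comp tendsto_natCast_atTop_atTop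
  have h2 : ∀ᶠ l : ℝ in atTop, 2 * (l ^ 2 + 1) ≤ Real.exp (l / 2) := by
    have h3 : Tendsto (fun l : ℝ => Real.exp (l / 2) / (l / 2) ^ 3) atTop atTop :=
      (Real.tendsto_exp_div_pow_atTop 3).comp (tendsto_id.atTop_div_const (by norm_num))
    filter_upwards [h3.eventually_ge_atTop 4, eventually_ge_atTop 8] with l hl hl8
    rw [le_div_iff₀ (by positivity)] at hl
    nlinarith [mul_nonneg (sub_nonneg.2 hl8) (sq_nonneg l)]
  filter_upwards [h1.eventually h2, h1.eventually_ge_atTop 3, eventually_ge_atTop 1] with X hX hX3 hX1 k hk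
  have hXr : (1 : ℝ) ≤ X := by exact_mod_cast hX1
  have hW : 0 < PW k := Nat.pos_of_ne_zero (NeZero.ne _)
  rw [Nat.le_div_iff_mul_le hW]
  have h4 := Pool.Agent.Q111.SZ.t_PWB.1 k
  have h5 : (4 : ℝ) ^ k ≤ Real.exp (Real.log X / 2) := by
    have h6 : (4 : ℝ) = Real.exp (Real.log 4) := (Real.exp_log (by norm_num)).symm
    rw [h6, ← Real.exp_nat_mul]
    apply Real.exp_le_exp.2
    have h7 : Real.log 4 ≤ 1.4 := by
      rw [show (4 : ℝ) = 2 ^ 2 by norm_num, Real.log_pow]
      have := Real.log_two_lt_d9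
      push_cast
      linarith
    have h8 : (0 : ℝ) ≤ k := Nat.cast_nonneg k
    have h9 : (0 : ℝ) ≤ Real.log 4 := Real.log_nonneg (by norm_num)
    calc (k : ℝ) * Real.log 4 ≤ Real.log X / 3 * 1.4 := mul_le_mul hk h7 h9 (by linarith)
      _ ≤ Real.log X / 2 := by linarith
  have h10 : (2 * ((k : ℝ) ^ 2 + 1)) ≤ Real.exp (Real.log X / 2) := by
    refine le_trans ?_ hX
    have h8 : (0 : ℝ) ≤ k := Nat.cast_nonneg k
    have h11 : (k : ℝ) ≤ Real.log X := by linarith
    nlinarith
  have h12 : (2 * ((k : ℝ) ^ 2 + 1)) * PW k ≤ X := by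
    calc (2 * ((k : ℝ) ^ 2 + 1)) * PW k ≤ Real.exp (Real.log X / 2) * Real.exp (Real.log X / 2) :=
          mul_le_mul h10 (h4.trans h5) (Nat.cast_nonneg _) (Real.exp_pos _).le
      _ = X := by
          rw [← Real.exp_add, add_halves, Real.exp_log (by linarith)]
  exact_mod_cast h12

/-- **Theorem.** (0) The singular series of an admissible set converges to a positive number.
(1) For all large `x` the conclusion holds for almost all admissible sets of `k ≤ M log log x` integers.
(2) For arbitrarily large `x` it holds for almost all admissible sets of `k` integers, uniformly for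
`k ≤ c (1 - δ) log x / log log x`.  (3) The same is true for every large `x`, unless there is an
exceptional zero at the scale `x`. -/
theorem result :
    (∀ A : Finset ℕ, Admissible A → Tendsto (partialSeries A) atTop (nhds (series A)) ∧ 0 < series A) ∧
    (∀ M δ ε : ℝ, 0 < δ → δ < 1 → 0 < ε → ε < 1 → ∀ᶠ x : ℝ in atTop, ∀ k : ℕ,
      (k : ℝ) ≤ M * Real.log (Real.log x) → Typical δ ε x k) ∧
    (∃ c : ℝ, 0 < c ∧ ∀ δ ε : ℝ, 0 < δ → δ < 1 → 0 < ε → ε < 1 → ∃ᶠ x : ℝ in atTop, ∀ k : ℕ,
      (k : ℝ) ≤ c * (1 - δ) * (Real.log x / Real.log (Real.log x)) → Typical δ ε x k) ∧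
    (∃ c C : ℝ, 0 < c ∧ 0 < C ∧ ∀ δ ε : ℝ, 0 < δ → δ < 1 → 0 < ε → ε < 1 → ∀ᶠ x : ℝ in atTop,
      NoExceptionalZero (C / (1 - δ)) x → ∀ k : ℕ,
      (k : ℝ) ≤ c * (1 - δ) * (Real.log x / Real.log (Real.log x)) → Typical δ ε x k) := by
  have hWk : ∀ c : ℝ, ∀ᶠ X : ℕ in atTop, c * (Real.log X / Real.log (Real.log X)) ≤ Real.log X / 3 := by
    intro c
    have h1 : Tendsto (fun X : ℕ => Real.log X) atTop atTop := Real.tendsto_log_atTop.comp tendsto_natCast_atTop_atTop
    have h2 : Tendsto (fun X : ℕ => Real.log (Real.log X)) atTop atTop := Real.tendsto_log_atTop.comp h1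
    filter_upwards [h1.eventually_ge_atTop 1, h2.eventually_ge_atTop (3 * |c| + 1)] with X hX hX2
    have h0 := abs_nonneg c
    rw [mul_div_assoc', div_le_div_iff₀ (by linarith) (by norm_num)]
    have h3 : c * Real.log X ≤ |c| * Real.log X := mul_le_mul_of_nonneg_right (le_abs_self c) (by linarith)
    nlinarith
  have hmono : ∀ {δ x : ℝ}, 0 < δ → δ < 1 → 1 ≤ x → (1 - δ) * Real.log x ≤ Real.log (sc δ x) → Real.log (sc δ x) ≤ Real.log x →
      Real.exp 1 ≤ Real.log (sc δ x) → (1 - δ) * (Real.log x / Real.log (Real.log x)) ≤ Real.log (sc δ x) / Real.log (Real.log (sc δ x)) ∧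
      1 ≤ Real.log (Real.log (sc δ x)) := by
    intro δ x hδ hδ1 hx1 h1 h2 h3
    have he : (1 : ℝ) ≤ Real.exp 1 := Real.one_le_exp (by norm_num)
    have h4 : 1 ≤ Real.log (Real.log (sc δ x)) := by
      have := Real.log_le_log (Real.exp_pos 1) h3
      rwa [Real.log_exp] at this
    have h5 : Real.log (Real.log (sc δ x)) ≤ Real.log (Real.log x) := Real.log_le_log (by linarith) h2
    refine ⟨?_, h4⟩
    rw [mul_div_assoc', div_le_div_iff₀ (by linarith) (by linarith)]
    exact mul_le_mul h1 h5 (by linarith) (by linarith)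
  refine ⟨conv, ?_, ?_, ?_⟩
  · intro M δ ε hδ hδ1 hε hε1
    have h1 := case1 zr' Pool.Agent.Q111.SZ.t_PWB Pool.Agent.Q177.SZ.t_SIEG suf' (2 * |M|) (ε / 2) (by linarith)
    have h2 : ∀ᶠ X : ℕ in atTop, 2 * |M| * Real.log (Real.log X) ≤ Real.log X / 3 := by
      have h1 : Tendsto (fun X : ℕ => Real.log X) atTop atTop := Real.tendsto_log_atTop.comp tendsto_natCast_atTop_atTop
      have h3 : ∀ᶠ l : ℝ in atTop, 2 * |M| * Real.log l ≤ l / 3 := by
        have h4 := (Real.isLittleO_log_id_atTop.def (c := 1 / (6 * (|M| + 1))) (by positivity))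
        filter_upwards [h4, eventually_ge_atTop 1] with l hl hl1
        simp only [id, Real.norm_eq_abs] at hl
        rw [abs_of_nonneg (Real.log_nonneg hl1), abs_of_nonneg (by linarith : (0 : ℝ) ≤ l)] at hl
        have h0 := abs_nonneg M
        have h5 : 2 * |M| * Real.log l ≤ 2 * |M| * (1 / (6 * (|M| + 1)) * l) := mul_le_mul_of_nonneg_left hl (by positivity)
        refine h5.trans ?_
        have h6 : 2 * |M| * (1 / (6 * (|M| + 1)) * l) = (|M| / (|M| + 1)) * (l / 3) := by
          field_simp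
          ring
        rw [h6]
        have h7 : |M| / (|M| + 1) ≤ 1 := by
          rw [div_le_one (by positivity)]
          linarith
        exact mul_le_of_le_one_left (by positivity) h7
      exact h1.eventually h3
    filter_upwards [sc_facts hδ hδ1, (sc_tendsto hδ1).eventually h1, (sc_tendsto hδ1).eventually W_facts,
      (sc_tendsto hδ1).eventually h2] with x hx hHL hWf h2 k hk
    obtain ⟨hx1, hx3, g1, g2, g3, g4⟩ := hx
    have hk2 : (k : ℝ) ≤ 2 * |M| * Real.log (Real.log (sc δ x)) := by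
      have he : (1 : ℝ) ≤ Real.exp 1 := Real.one_le_exp (by norm_num)
      have h5 : 0 ≤ Real.log (Real.log (sc δ x)) := Real.log_nonneg (by linarith)
      have h6 : 0 ≤ Real.log (Real.log x) := Real.log_nonneg (by linarith)
      calc (k : ℝ) ≤ M * Real.log (Real.log x) := hk
        _ ≤ |M| * Real.log (Real.log x) := mul_le_mul_of_nonneg_right (le_abs_self M) h6
        _ ≤ |M| * (2 * Real.log (Real.log (sc δ x))) := mul_le_mul_of_nonneg_left g4 (abs_nonneg M)
        _ = _ := by ring
    exact typical_of hε hε1 hx1 hx3 (hWf k (hk2.trans h2)) (hHL k hk2)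
  · obtain ⟨c, hc, h⟩ := case2 Pool.Agent.Q111.SZ.t_PWB suf' good'
    refine ⟨c, hc, fun δ ε hδ hδ1 hε hε1 => ?_⟩
    have hd : 0 < 1 - δ := by linarith
    set u : ℕ → ℝ := fun X => ((X : ℝ) - 1 / 2) ^ (1 / (1 - δ)) with hu
    have hut : Tendsto u atTop atTop := (tendsto_rpow_atTop (by positivity)).comp
      (tendsto_atTop_add_const_right _ (-(1 / 2)) tendsto_natCast_atTop_atTop)
    apply hut.frequently
    have hev := (hut.eventually (sc_facts hδ hδ1)).and ((W_facts.and (hWk c)).and (eventually_ge_atTop 1))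
    refine ((h (ε / 2) (by linarith)).and_eventually hev).mono ?_
    rintro X ⟨hHL, ⟨hx1, hx3, g1, g2, g3, -⟩, ⟨hWf, hWc⟩, hX1⟩ k hk
    have hX1r : (1 : ℝ) ≤ X := by exact_mod_cast hX1
    have e1 : u X ^ (1 - δ) = X - 1 / 2 := by
      rw [hu]
      simp only
      rw [← Real.rpow_mul (by linarith), one_div_mul_cancel hd.ne', Real.rpow_one]
    have e2 : ⌊u X ^ (1 - δ)⌋₊ + 1 = X := by
      rw [e1]
      have : ⌊(X : ℝ) - 1 / 2⌋₊ = X - 1 := by
        rw [Nat.floor_eq_iff (by linarith), Nat.cast_sub hX1]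
        push_cast
        constructor <;> linarith
      omega
    have e3 : sc δ (u X) = X := e2
    obtain ⟨m1, m2⟩ := hmono hδ hδ1 hx1 g1 g2 g3
    have hk2 : (k : ℝ) ≤ c * (Real.log X / Real.log (Real.log X)) := by
      rw [e3] at m1
      refine hk.trans ?_
      rw [mul_assoc]
      exact mul_le_mul_of_nonneg_left m1 hc.le
    refine typical_of hε hε1 hx1 hx3 ?_ ?_
    · rw [e2]
      exact hWf k (hk2.trans hWc)
    · rw [e2]
      exact hHL k hk2
  · obtain ⟨c, C, hc, hC, h⟩ := dich zr' Pool.Agent.Q111.SZ.t_PWB suf'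
    refine ⟨c, C, hc, hC, fun δ ε hδ hδ1 hε hε1 => ?_⟩
    have hd : 0 < 1 - δ := by linarith
    filter_upwards [sc_facts hδ hδ1, (sc_tendsto hδ1).eventually (h (ε / 2) (by linarith)), (sc_tendsto hδ1).eventually W_facts,
      (sc_tendsto hδ1).eventually (hWk c)] with x hx hHL hWf hWc hno k hk
    obtain ⟨hx1, hx3, g1, g2, g3, g4⟩ := hx
    obtain ⟨m1, m2⟩ := hmono hδ hδ1 hx1 g1 g2 g3
    have he : (1 : ℝ) ≤ Real.exp 1 := Real.one_le_exp (by norm_num)
    have hl0 : 0 < Real.log (sc δ x) := by linarith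
    have hk2 : (k : ℝ) ≤ c * (Real.log (sc δ x) / Real.log (Real.log (sc δ x))) := by
      refine hk.trans ?_
      rw [mul_assoc]
      exact mul_le_mul_of_nonneg_left m1 hc.le
    refine typical_of hε hε1 hx1 hx3 (hWf k (hk2.trans hWc)) (hHL ?_ k hk2)
    intro r _ hr hrle χ hχ hχ2 β hβ
    have hll : Real.log (Real.log (sc δ x)) ≤ Real.log (Real.log x) := Real.log_le_log hl0 g2
    have hle : (r : ℝ) ≤ Real.exp (Real.log x / Real.log (Real.log x)) := by
      refine hrle.trans (Real.exp_le_exp.2 ?_)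
      have h5 : Real.log (Real.log x) / Real.log x ≤ Real.log (Real.log (sc δ x)) / Real.log (sc δ x) :=
        Real.log_div_self_antitoneOn g3 (g3.trans g2) g2
      rw [div_le_div_iff₀ (by linarith) hl0] at h5
      rw [div_le_div_iff₀ (by linarith) (by linarith)]
      linarith
    refine (hno r hr hle χ hχ hχ2 β hβ).trans ?_
    have h6 : C * (Real.log (Real.log (sc δ x)) / Real.log (sc δ x)) ≤ C / (1 - δ) * (Real.log (Real.log x) / Real.log x) := by
      have h7 : Real.log (Real.log (sc δ x)) / Real.log (sc δ x) ≤ Real.log (Real.log x) / ((1 - δ) * Real.log x) :=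
        div_le_div₀ (by linarith) hll (by have : 0 < Real.log x := by linarith
                                          positivity) g1
      calc C * (Real.log (Real.log (sc δ x)) / Real.log (sc δ x)) ≤ C * (Real.log (Real.log x) / ((1 - δ) * Real.log x)) :=
            mul_le_mul_of_nonneg_left h7 hC.le
        _ = _ := by
            have : 0 < Real.log x := by linarith
            field_simp
    linarith

end Pool.Agent.Results.MP_f686a1_nt.AlmostAllSets
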