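import Pool.Agent.Q120.RN.Sets
import Pool.Agent.Q120.MF.Exists

/-!
# Uniform tuples with many shifts in Cramér's model

The question asks whether every admissible set of at most `(log x)^(1 - δ)` shifts below `x^(1 - δ)` has a translate
by some `n ≤ x` which consists of primes. In Cramér's random model we prove this, for all sets at the same time, in
the sharp range: almost surely, for all large `x`, EVERY set of at most `(1 - ε) log x / log log x` shifts which are
at most `x ^ C`, has a translate by some `n` in `(x, 2 x]` inside the random set, and `1 - ε` cannot be replaced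
by `1 + ε`.
-/

set_option autoImplicit false

namespace Pool.Agent.Results.MP_f686a1_nt.EverySetInTheModel

open Finset MeasureTheory Filter Pool.Agent.Q120.ET Pool.Agent.Q120.MF Pool.Agent.Q120.RN Pool.Agent.Q120.AD

variable {Ω : Type*} [MeasurableSpace Ω] {μ : Measure Ω} [IsProbabilityMeasure μ] {A : Ω → Set ℕ}

theorem log_two_pow (j : ℕ) : Real.log ((2 ^ j : ℕ) : ℝ) = j * Real.log 2 := by
  push_cast
  rw [Real.log_pow]

theorem sharp (hA : IsCramer μ A) {ε δ : ℝ} (hε : 0 < ε) (hδ : 0 < δ) (H : ℕ → Finset ℕ)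
    (hH : ∀ᶠ j in atTop, (1 + ε) * Real.log ((2 ^ j : ℕ) : ℝ) ≤ (H j).card * Real.log (Real.log ((2 ^ j : ℕ) : ℝ))) :
    ∀ᵐ ω ∂μ, ∀ᶠ j in atTop, ∀ n : ℕ, δ * Real.log ((2 ^ j : ℕ) : ℝ) ≤ Real.log n → n ≤ 2 ^ j →
      ¬ ∀ a ∈ H j, n + a ∈ A ω := by
  classical
  have hl2 : 0 < Real.log 2 := Real.log_pos (by norm_num)
  have hL : Tendsto (fun j : ℕ => (j : ℝ) * Real.log 2) atTop atTop :=
    tendsto_natCast_atTop_atTop.atTop_mul_const hl2
  have hll : Tendsto (fun j : ℕ => Real.log ((j : ℝ) * Real.log 2)) atTop atTop := Real.tendsto_log_atTop.comp hL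
  obtain ⟨B, hB⟩ : ∃ B : ℕ → Set Ω, B = fun (j : ℕ) => {ω | ¬ ∀ n : ℕ, δ * Real.log ((2 ^ j : ℕ) : ℝ) ≤ Real.log n →
      n ≤ 2 ^ j → ¬ ∀ a ∈ H j, n + a ∈ A ω} := ⟨_, rfl⟩
  obtain ⟨q, hq⟩ : ∃ q : ℝ, q = Real.exp (-(ε / 2 * Real.log 2)) := ⟨_, rfl⟩
  have hq0 : 0 ≤ q := hq ▸ (Real.exp_pos _).le
  have hq1 : q < 1 := by
    rw [hq, Real.exp_lt_one_iff]
    nlinarith
  have hs : Summable (fun j : ℕ => 2 * q ^ j) := (summable_geometric_of_lt_one hq0 hq1).mul_left 2
  obtain ⟨η, hη⟩ : ∃ η : ℝ, η = ε / (2 * (1 + ε)) := ⟨_, rfl⟩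
  have hη0 : 0 < η := by rw [hη]; positivity
  have hηe : (1 - η) * (1 + ε) = 1 + ε / 2 := by
    rw [hη]
    field_simp
    ring
  have hbound : ∀ᶠ j : ℕ in atTop, μ.real (B j) ≤ 2 * q ^ j := by
    filter_upwards [hH, hL.eventually_ge_atTop (3 / δ), hll.eventually_ge_atTop 1,
      hll.eventually_ge_atTop (-Real.log δ / η)] with j h1 h2 h3 h4
    rw [log_two_pow] at h1
    obtain ⟨L, hLd⟩ : ∃ L : ℝ, L = (j : ℝ) * Real.log 2 := ⟨_, rfl⟩
    rw [← hLd] at h1 h2 h3 h4
    have hL0 : 0 < L := by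
      have : 0 < 3 / δ := by positivity
      linarith
    have hδL : 3 ≤ δ * L := by
      rw [div_le_iff₀ hδ] at h2
      linarith
    obtain ⟨k, hk⟩ : ∃ k, k = (H j).card := ⟨_, rfl⟩
    rw [← hk] at h1
    obtain ⟨I, hI⟩ : ∃ I : Finset ℕ, I = (range (2 ^ j + 1)).filter (fun n : ℕ => δ * L ≤ Real.log n) := ⟨_, rfl⟩
    have hsub : B j ⊆ ⋃ n ∈ I, {ω | ∀ m ∈ sh n (H j), m ∈ A ω} := by
      intro ω hω
      rw [hB] at hω
      have hω' : ¬ ∀ n : ℕ, δ * Real.log ((2 ^ j : ℕ) : ℝ) ≤ Real.log n → n ≤ 2 ^ j → ¬ ∀ a ∈ H j, n + a ∈ A ω := hω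
      push Not at hω'
      obtain ⟨n, h5, h6, h7⟩ := hω'
      rw [log_two_pow, ← hLd] at h5
      refine Set.mem_biUnion (x := n) ?_ ?_
      · rw [hI]
        show n ∈ (range (2 ^ j + 1)).filter (fun n : ℕ => δ * L ≤ Real.log n)
        rw [mem_filter, mem_range]
        exact ⟨by omega, h5⟩
      · intro m hm
        obtain ⟨a, ha, rfl⟩ := mem_sh.1 hm
        exact h7 a ha
    have hEb : ∀ n ∈ I, μ.real {ω | ∀ m ∈ sh n (H j), m ∈ A ω} ≤ (1 / (δ * L)) ^ k := by
      intro n hn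
      rw [hI, mem_filter] at hn
      have hn3 : 3 ≤ n := by
        by_contra hcon
        have h5 : Real.log n ≤ Real.log 2 := by
          rcases Nat.eq_zero_or_pos n with h0 | h0
          · rw [h0]
            simp
            positivity
          · exact Real.log_le_log (by exact_mod_cast h0) (by
              have : n ≤ 2 := by omega
              exact_mod_cast this)
        linarith [Real.log_two_lt_d9, hn.2]
      have hn0 : (0 : ℝ) < n := by
        have : 0 < n := by omega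
        exact_mod_cast this
      rw [real_all_in hA (fun m hm => by
        obtain ⟨a, ha, rfl⟩ := mem_sh.1 hm
        omega), hk, ← card_sh n (H j), ← prod_const]
      apply Finset.prod_le_prod
      · intro m hm
        obtain ⟨a, ha, rfl⟩ := mem_sh.1 hm
        have := one_lt_log (show 3 ≤ n + a by omega)
        positivity
      · intro m hm
        obtain ⟨a, ha, rfl⟩ := mem_sh.1 hm
        apply one_div_le_one_div_of_le (by linarith)
        refine hn.2.trans (Real.log_le_log hn0 ?_)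
        push_cast
        linarith [Nat.cast_nonneg (α := ℝ) a]
    have h5 := (measureReal_mono (μ := μ) hsub (measure_ne_top _ _)).trans (real_biUnion_le I _ hEb)
    have hcard : (I.card : ℝ) ≤ 2 * Real.exp L := by
      have h6 : I.card ≤ 2 ^ j + 1 := by
        rw [hI]
        exact (card_filter_le _ _).trans (le_of_eq (card_range _))
      have h7 : (I.card : ℝ) ≤ 2 ^ j + 1 := by exact_mod_cast h6
      have h8 : (2 : ℝ) ^ j = Real.exp L := by
        rw [hLd, Real.exp_nat_mul, Real.exp_log (by norm_num)]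
      have h9 := Real.one_le_exp hL0.le
      linarith
    have h6 : (1 / (δ * L)) ^ k ≤ Real.exp (-((1 + ε / 2) * L)) := by
      have h7 : 1 / (δ * L) = Real.exp (-(Real.log δ + Real.log L)) := by
        rw [Real.exp_neg, Real.exp_add, Real.exp_log hδ, Real.exp_log hL0, one_div]
      rw [h7, ← Real.exp_nat_mul, Real.exp_le_exp]
      rw [div_le_iff₀ hη0] at h4
      have h8 : (1 - η) * Real.log L ≤ Real.log δ + Real.log L := by nlinarith
      have h9 : (k : ℝ) * ((1 - η) * Real.log L) ≤ k * (Real.log δ + Real.log L) :=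
        mul_le_mul_of_nonneg_left h8 (Nat.cast_nonneg k)
      have h10 : (1 - η) * ((1 + ε) * L) ≤ (1 - η) * (k * Real.log L) := by
        apply mul_le_mul_of_nonneg_left h1
        have : η ≤ 1 := by
          rw [hη, div_le_one (by positivity)]
          linarith
        linarith
      have h11 : (1 - η) * ((1 + ε) * L) = (1 + ε / 2) * L := by rw [← mul_assoc, hηe]
      nlinarith
    refine h5.trans ?_
    calc (I.card : ℝ) * (1 / (δ * L)) ^ k ≤ (2 * Real.exp L) * Real.exp (-((1 + ε / 2) * L)) :=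
          mul_le_mul hcard h6 (by positivity) (by positivity)
      _ = 2 * Real.exp (-(ε / 2 * L)) := by
          rw [mul_assoc, ← Real.exp_add]
          congr 2
          ring
      _ = 2 * q ^ j := by
          rw [hq, ← Real.exp_nat_mul, hLd]
          congr 2
          ring
  have h1 := ae_eventually_notMem (Pool.Agent.Q120.ET.tsum_ne_top_of_real (μ := μ) hs (f := B) hbound)
  filter_upwards [h1] with ω hω
  filter_upwards [hω] with x hx
  rw [hB] at hx
  exact not_not.1 hx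

theorem result :
    (∃ (Ω : Type) (_ : MeasurableSpace Ω) (μ : Measure Ω) (A : Ω → Set ℕ), IsProbabilityMeasure μ ∧ IsCramer μ A) ∧
    ∀ (Ω : Type) [MeasurableSpace Ω] (μ : Measure Ω) [IsProbabilityMeasure μ] (A : Ω → Set ℕ), IsCramer μ A →
      -- every small set of shifts, all sets at the same time
      (∀ᵐ ω ∂μ, ∀ ε : ℝ, 0 < ε → ∀ C : ℕ, ∀ᶠ x : ℕ in atTop, ∀ H : Finset ℕ, (∀ a ∈ H, a ≤ x ^ C) →
        (H.card : ℝ) * Real.log (Real.log x) ≤ (1 - ε) * Real.log x →
          ∃ n, x < n ∧ n ≤ 2 * x ∧ ∀ a ∈ H, n + a ∈ A ω) ∧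
      -- no sequence of larger sets
      (∀ ε δ : ℝ, 0 < ε → 0 < δ → ∀ H : ℕ → Finset ℕ,
        (∀ᶠ j in atTop, (1 + ε) * Real.log ((2 ^ j : ℕ) : ℝ) ≤
          ((H j).card : ℝ) * Real.log (Real.log ((2 ^ j : ℕ) : ℝ))) →
        ∀ᵐ ω ∂μ, ∀ᶠ j in atTop, ∀ n : ℕ, ((2 ^ j : ℕ) : ℝ) ^ δ ≤ n → n ≤ 2 ^ j → ¬ ∀ a ∈ H j, n + a ∈ A ω) := by
  refine ⟨⟨_, _, cramerMeasure, cramerSet, inferInstance, isCramer⟩, ?_⟩
  intro Ω _ μ _ A hA
  constructor
  · have h1 : ∀ᵐ ω ∂μ, ∀ j C : ℕ, ∀ᶠ x : ℕ in atTop, ∀ H : Finset ℕ, (∀ a ∈ H, a ≤ x ^ C) →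
        (H.card : ℝ) * Real.log (Real.log x) ≤ (1 - 1 / ((j : ℝ) + 2)) * Real.log x →
          ∃ n, x < n ∧ n ≤ 2 * x ∧ ∀ a ∈ H, n + a ∈ A ω := by
      rw [ae_all_iff]
      intro j
      rw [ae_all_iff]
      intro C
      refine every_set hA (by positivity) ?_ C
      rw [div_lt_one (by positivity)]
      linarith [Nat.cast_nonneg (α := ℝ) j]
    filter_upwards [h1] with ω hω
    intro ε hε C
    obtain ⟨j, hj⟩ := exists_nat_gt (1 / ε)
    have hj1 : 1 / ((j : ℝ) + 2) ≤ ε := by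
      rw [div_le_iff₀ (by positivity)]
      rw [div_lt_iff₀ hε] at hj
      nlinarith
    filter_upwards [hω j C, hl.eventually_ge_atTop 0] with x hx hL H h1 h2
    exact hx H h1 (h2.trans (mul_le_mul_of_nonneg_right (by linarith) hL))
  · intro ε δ hε hδ H hH
    filter_upwards [sharp hA hε hδ H hH] with ω hω
    filter_upwards [hω] with j hj n h1 h2
    refine hj n ?_ h2
    have h3 : (0 : ℝ) < ((2 ^ j : ℕ) : ℝ) := by positivity
    have h4 := Real.log_le_log (Real.rpow_pos_of_pos h3 δ) h1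
    rwa [Real.log_rpow h3] at h4

end Pool.Agent.Results.MP_f686a1_nt.EverySetInTheModel
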