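import Mathlib
import Pool.Agent.Q160.GK7

set_option autoImplicit false

/-!
# Admissible sets with a growing number of elements: how often are they shifted into the primes?
-/

namespace Pool.Agent.Results.MP_f686a1_nt.GrowingAdmissibleSets

open Finset Filter
open Pool.Agent.Q160.GK (Admissible adm primeShifts sets_lower sets_upper)

/-- some positive `n ≤ x` makes all `n + a`, `a ∈ A`, prime -/
def Shifted (A : Finset ℕ) (x : ℕ) : Prop := ∃ n ∈ Icc 1 x, ∀ a ∈ A, (n + a).Prime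

lemma tL : Tendsto (fun x : ℕ => Real.log (x : ℝ)) atTop atTop :=
  Real.tendsto_log_atTop.comp tendsto_natCast_atTop_atTop

lemma tLL : Tendsto (fun x : ℕ => Real.log (Real.log (x : ℝ))) atTop atTop :=
  Real.tendsto_log_atTop.comp tL

lemma floor_facts (δ : ℝ) (hδ : 0 < δ) (hδ1 : δ < 1) : ∀ᶠ x : ℕ in atTop,
    (x : ℝ) ^ (1 - δ) - 1 ≤ ((⌊(x : ℝ) ^ (1 - δ)⌋₊ : ℕ) : ℝ) ∧
    (1 - δ) / 2 * Real.log x ≤ Real.log ((⌊(x : ℝ) ^ (1 - δ)⌋₊ : ℕ) : ℝ) ∧
    Real.log ((⌊(x : ℝ) ^ (1 - δ)⌋₊ : ℕ) : ℝ) ≤ Real.log x ∧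
    (2 : ℝ) ≤ (x : ℝ) ^ (1 - δ) := by
  have hT : Tendsto (fun x : ℕ => (x : ℝ) ^ (1 - δ)) atTop atTop :=
    (tendsto_rpow_atTop (by linarith)).comp tendsto_natCast_atTop_atTop
  have hT2 : Tendsto (fun x : ℕ => (x : ℝ) ^ ((1 - δ) / 2)) atTop atTop :=
    (tendsto_rpow_atTop (by linarith)).comp tendsto_natCast_atTop_atTop
  filter_upwards [hT.eventually_ge_atTop 2, hT2.eventually_ge_atTop 2, eventually_ge_atTop 3] with x h1 h2 h3
  have hx : (3 : ℝ) ≤ x := by exact_mod_cast h3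
  have h4 : (x : ℝ) ^ (1 - δ) - 1 ≤ ((⌊(x : ℝ) ^ (1 - δ)⌋₊ : ℕ) : ℝ) := (Nat.sub_one_lt_floor _).le
  have h5 : ((⌊(x : ℝ) ^ (1 - δ)⌋₊ : ℕ) : ℝ) ≤ (x : ℝ) ^ (1 - δ) := Nat.floor_le (by positivity)
  have h6 : (x : ℝ) ^ (1 - δ) = (x : ℝ) ^ ((1 - δ) / 2) * (x : ℝ) ^ ((1 - δ) / 2) := by
    rw [← Real.rpow_add (by linarith)]
    congr 1
    ring
  refine ⟨h4, ?_, ?_, h1⟩
  · rw [← Real.log_rpow (by linarith)]
    refine Real.log_le_log (by positivity) (le_trans ?_ h4)
    nlinarith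
  · refine Real.log_le_log (by linarith) (h5.trans ?_)
    calc (x : ℝ) ^ (1 - δ) ≤ (x : ℝ) ^ (1 : ℝ) := Real.rpow_le_rpow_of_exponent_le (by linarith) (by linarith)
      _ = x := Real.rpow_one _

open Classical in
theorem result : ∃ C : ℝ, 1 ≤ C ∧
    (∃ H₀ : ℕ, ∀ k H y : ℕ, H₀ ≤ H → 1 ≤ k → (k : ℝ) ≤ Real.log H →
      (y ≤ H → (C * (Real.log H / Real.log (k + 2))) ^ k ≤ y →
        (C ^ k)⁻¹ * ((adm k H).card : ℝ) ≤ (((adm k H).filter (fun A =>
          (y : ℝ) * ((C * (Real.log H / Real.log (k + 2))) ^ k)⁻¹ ≤ (primeShifts A y : ℝ))).card : ℝ)) ∧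
      (((powersetCard k (range (H + 1))).filter (fun A => Shifted A y)).card : ℝ) ≤
        y * (C * (Real.log (k + 2) / Real.log H)) ^ k * ((adm k H).card : ℝ)) ∧
    (∀ δ ε : ℝ, 0 < δ → δ < ε → ε < 1 → ∀ᶠ x : ℕ in atTop, ∀ k : ℕ, 1 ≤ k →
      (k : ℝ) ≤ (1 - ε) * (Real.log x / Real.log (Real.log x)) →
      (C ^ k)⁻¹ * ((adm k ⌊(x : ℝ) ^ (1 - δ)⌋₊).card : ℝ) ≤
        (((adm k ⌊(x : ℝ) ^ (1 - δ)⌋₊).filter (fun A => Shifted A x)).card : ℝ)) ∧
    (∀ δ ε M : ℝ, 0 < δ → δ < 1 → 0 < ε → 0 < M → ∀ᶠ x : ℕ in atTop, ∀ k : ℕ,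
      (1 + ε) * (Real.log x / Real.log (Real.log x)) ≤ k → (k : ℝ) ≤ Real.log ⌊(x : ℝ) ^ (1 - δ)⌋₊ →
      M ^ k * (((powersetCard k (range (⌊(x : ℝ) ^ (1 - δ)⌋₊ + 1))).filter (fun A => Shifted A x)).card : ℝ) ≤
        ((adm k ⌊(x : ℝ) ^ (1 - δ)⌋₊).card : ℝ)) := by
  obtain ⟨C1, hC1, H1, hlow⟩ := sets_lower
  obtain ⟨C2, hC2, H2, hup⟩ := sets_upper
  obtain ⟨C, hC⟩ : ∃ C, C = max C1 C2 := ⟨_, rfl⟩
  have hCC1 : C1 ≤ C := by rw [hC]; exact le_max_left _ _
  have hCC2 : C2 ≤ C := by rw [hC]; exact le_max_right _ _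
  have hC0 : 1 ≤ C := hC1.trans hCC1
  have hCpos : 0 < C := by linarith
  -- the general lower bound
  have hlow' : ∀ k H y : ℕ, max H1 3 ≤ H → 1 ≤ k → (k : ℝ) ≤ Real.log H → y ≤ H →
      (C * (Real.log H / Real.log (k + 2))) ^ k ≤ y →
        (C ^ k)⁻¹ * ((adm k H).card : ℝ) ≤ (((adm k H).filter (fun A =>
          (y : ℝ) * ((C * (Real.log H / Real.log (k + 2))) ^ k)⁻¹ ≤ (primeShifts A y : ℝ))).card : ℝ) := by
    intro k H y hH hk hkH hyH hy
    have hH3 : (3 : ℝ) ≤ H := by exact_mod_cast le_trans (le_max_right _ _) hH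
    have hL0 : 0 < Real.log H := Real.log_pos (by linarith)
    have hlk : 0 < Real.log ((k : ℝ) + 2) := Pool.Agent.Q160.GK.log_two_add k
    have hC1pos : 0 < C1 := by linarith
    have h1 : (C1 * (Real.log H / Real.log (k + 2))) ^ k ≤ (C * (Real.log H / Real.log (k + 2))) ^ k :=
      pow_le_pow_left₀ (by positivity) (mul_le_mul_of_nonneg_right hCC1 (by positivity)) k
    have h2 := hlow k H y (le_trans (le_max_left _ _) hH) hk hkH hyH (h1.trans hy)
    have h3 : (C ^ k)⁻¹ ≤ (C1 ^ k)⁻¹ := inv_anti₀ (by positivity) (pow_le_pow_left₀ (by positivity) hCC1 k)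
    refine (mul_le_mul_of_nonneg_right h3 (by positivity)).trans (h2.trans ?_)
    have h4 : (adm k H).filter (fun A => (y : ℝ) * ((C1 * (Real.log H / Real.log (k + 2))) ^ k)⁻¹ ≤ (primeShifts A y : ℝ)) ⊆
        (adm k H).filter (fun A => (y : ℝ) * ((C * (Real.log H / Real.log (k + 2))) ^ k)⁻¹ ≤ (primeShifts A y : ℝ)) := by
      intro A hA
      rw [mem_filter] at hA ⊢
      refine ⟨hA.1, le_trans ?_ hA.2⟩
      exact mul_le_mul_of_nonneg_left (inv_anti₀ (by positivity) h1) (by positivity)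
    exact_mod_cast card_le_card h4
  -- the general upper bound
  have hup' : ∀ k H y : ℕ, max H2 3 ≤ H → (k : ℝ) ≤ Real.log H →
      (((powersetCard k (range (H + 1))).filter (fun A => Shifted A y)).card : ℝ) ≤
        y * (C * (Real.log (k + 2) / Real.log H)) ^ k * ((adm k H).card : ℝ) := by
    intro k H y hH hkH
    have hH3 : (3 : ℝ) ≤ H := by exact_mod_cast le_trans (le_max_right _ _) hH
    have hL0 : 0 < Real.log H := Real.log_pos (by linarith)
    have hlk : 0 < Real.log ((k : ℝ) + 2) := Pool.Agent.Q160.GK.log_two_add k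
    have hC2pos : 0 < C2 := by linarith
    have h1 := hup k H y (le_trans (le_max_left _ _) hH) hkH
    have e : (powersetCard k (range (H + 1))).filter (fun A => Shifted A y) =
        (powersetCard k (range (H + 1))).filter (fun A => ∃ n ∈ Icc 1 y, ∀ a ∈ A, (n + a).Prime) := by
      ext A
      simp only [mem_filter]
      exact Iff.rfl
    rw [e]
    refine h1.trans ?_
    · refine mul_le_mul_of_nonneg_right (mul_le_mul_of_nonneg_left ?_ (by positivity)) (by positivity)
      exact pow_le_pow_left₀ (by positivity) (mul_le_mul_of_nonneg_right hCC2 (by positivity)) k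
  refine ⟨C, hC0, ⟨max (max H1 3) (max H2 3), fun k H y hH hk hkH => ⟨?_, ?_⟩⟩, ?_, ?_⟩
  · intro hyH hy
    exact hlow' k H y (le_trans (le_max_left _ _) hH) hk hkH hyH hy
  · exact hup' k H y (le_trans (le_max_right _ _) hH) hkH
  · -- small k
    intro δ ε hδ hδε hε
    have hff := floor_facts δ hδ (by linarith)
    obtain ⟨s, hs⟩ : ∃ s : ℝ, s = 1 - (δ + ε) / 2 := ⟨_, rfl⟩
    have hs1 : s < 1 - δ := by rw [hs]; linarith
    have hs0 : 0 < s := by rw [hs]; linarith
    have hT1 : Tendsto (fun x : ℕ => (x : ℝ) ^ (1 - δ - s)) atTop atTop :=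
      (tendsto_rpow_atTop (by linarith)).comp tendsto_natCast_atTop_atTop
    have hTH : Tendsto (fun x : ℕ => (x : ℝ) ^ (1 - δ)) atTop atTop :=
      (tendsto_rpow_atTop (by linarith)).comp tendsto_natCast_atTop_atTop
    filter_upwards [hff, tL.eventually_ge_atTop 1, tLL.eventually_ge_atTop (max 2 (2 * Real.log C / (ε - δ))),
      hT1.eventually_ge_atTop 4, hTH.eventually_ge_atTop ((max H1 3 : ℕ) + 1 : ℝ), hTH.eventually_ge_atTop 8,
      eventually_ge_atTop 3] with x hf hL1 hLL hx1 hxH hx8 hx3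
    obtain ⟨hf1, hf2, hf3, hf4⟩ := hf
    intro k hk hkx
    obtain ⟨H, hH⟩ : ∃ H, H = ⌊(x : ℝ) ^ (1 - δ)⌋₊ := ⟨_, rfl⟩
    rw [← hH] at hf1 hf2 hf3 ⊢
    have hxr : (3 : ℝ) ≤ x := by exact_mod_cast hx3
    obtain ⟨L, hLd⟩ : ∃ L, L = Real.log (x : ℝ) := ⟨_, rfl⟩
    rw [← hLd] at hL1 hLL hkx hf2 hf3
    have hLL2 : 2 ≤ Real.log L := le_trans (le_max_left _ _) hLL
    have hLLC : 2 * Real.log C / (ε - δ) ≤ Real.log L := le_trans (le_max_right _ _) hLL
    have hLLpos : 0 < Real.log L := by linarith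
    have hLpos : 0 < L := by linarith
    have hkL : (k : ℝ) ≤ Real.log H := by
      refine hkx.trans (le_trans ?_ hf2)
      have h1 : L / Real.log L ≤ L / 2 := div_le_div_of_nonneg_left hLpos.le (by norm_num) hLL2
      calc (1 - ε) * (L / Real.log L) ≤ (1 - δ) * (L / 2) :=
            mul_le_mul (by linarith) h1 (by positivity) (by linarith)
        _ = (1 - δ) / 2 * L := by ring
    have hlk : 1 ≤ Real.log ((k : ℝ) + 2) := by
      have h1 : (1 : ℝ) ≤ k := by exact_mod_cast hk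
      rw [Real.le_log_iff_exp_le (by linarith)]
      have := Real.exp_one_lt_d9
      linarith
    have hHpos : 0 < Real.log H := by
      have h1 : (1 : ℝ) ≤ k := by exact_mod_cast hk
      linarith
    obtain ⟨W, hW⟩ : ∃ W : ℝ, W = (C * (Real.log H / Real.log (k + 2))) ^ k := ⟨_, rfl⟩
    have hW1 : W ≤ (x : ℝ) ^ s := by
      have h1 : W ≤ (C * L) ^ k := by
        rw [hW]
        refine pow_le_pow_left₀ (by positivity) (mul_le_mul_of_nonneg_left ?_ hCpos.le) k
        rw [div_le_iff₀ (by linarith)]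
        nlinarith
      refine h1.trans ?_
      have h2 : (C * L) ^ k = Real.exp (k * (Real.log C + Real.log L)) := by
        rw [← Real.log_mul hCpos.ne' hLpos.ne', Real.exp_nat_mul, Real.exp_log (by positivity)]
      have h3 : (x : ℝ) ^ s = Real.exp (L * s) := by
        rw [Real.rpow_def_of_pos (by linarith), hLd]
      rw [h2, h3]
      refine Real.exp_le_exp.2 ?_
      have hlogC : 0 ≤ Real.log C := Real.log_nonneg hC0
      have h4 : (k : ℝ) * Real.log L ≤ (1 - ε) * L := by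
        calc (k : ℝ) * Real.log L ≤ (1 - ε) * (L / Real.log L) * Real.log L :=
              mul_le_mul_of_nonneg_right hkx hLLpos.le
          _ = (1 - ε) * L := by field_simp
      have h5 : Real.log C ≤ (ε - δ) / 2 * Real.log L := by
        rw [div_le_iff₀ (by linarith)] at hLLC
        linarith
      have h6 : (k : ℝ) * Real.log C ≤ (ε - δ) / 2 * L := by
        have h7 : (k : ℝ) * Real.log L ≤ L := by nlinarith
        calc (k : ℝ) * Real.log C ≤ k * ((ε - δ) / 2 * Real.log L) :=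
              mul_le_mul_of_nonneg_left h5 (by positivity)
          _ = (ε - δ) / 2 * (k * Real.log L) := by ring
          _ ≤ (ε - δ) / 2 * L := mul_le_mul_of_nonneg_left h7 (by linarith)
      rw [hs]
      nlinarith
    have hWpos : 0 < W := by rw [hW]; positivity
    obtain ⟨y, hy⟩ : ∃ y, y = ⌈W⌉₊ := ⟨_, rfl⟩
    have hWy : W ≤ y := by rw [hy]; exact Nat.le_ceil _
    have hyW : (y : ℝ) < W + 1 := by rw [hy]; exact Nat.ceil_lt_add_one hWpos.le
    have hx4 : 4 * (x : ℝ) ^ s ≤ (x : ℝ) ^ (1 - δ) := by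
      have h1 : (x : ℝ) ^ (1 - δ) = (x : ℝ) ^ (1 - δ - s) * (x : ℝ) ^ s := by
        rw [← Real.rpow_add (by linarith)]
        congr 1
        ring
      rw [h1]
      exact mul_le_mul_of_nonneg_right hx1 (by positivity)
    have hyH : (y : ℝ) ≤ H := by linarith
    have hHx : (x : ℝ) ^ (1 - δ) ≤ x := by
      calc (x : ℝ) ^ (1 - δ) ≤ (x : ℝ) ^ (1 : ℝ) := Real.rpow_le_rpow_of_exponent_le (by linarith) (by linarith)
        _ = x := Real.rpow_one _
    have h2yx : 2 * (y : ℝ) ≤ x := by linarith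
    have hHH : max H1 3 ≤ H := by
      have : ((max H1 3 : ℕ) : ℝ) ≤ H := by linarith
      exact_mod_cast this
    have hres := hlow' k H y hHH hk hkL (by exact_mod_cast hyH) (by rw [← hW]; exact hWy)
    rw [← hW] at hres
    refine hres.trans ?_
    have hsub : (adm k H).filter (fun A => (y : ℝ) * W⁻¹ ≤ (primeShifts A y : ℝ)) ⊆
        (adm k H).filter (fun A => Shifted A x) := by
      intro A hA
      rw [mem_filter] at hA ⊢
      refine ⟨hA.1, ?_⟩
      have hypos : (0 : ℝ) < y := lt_of_lt_of_le hWpos hWy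
      have h1 : (0 : ℝ) < primeShifts A y := lt_of_lt_of_le (by positivity) hA.2
      have h2 : 0 < primeShifts A y := by exact_mod_cast h1
      unfold primeShifts at h2
      obtain ⟨n, hn⟩ := card_pos.1 h2
      rw [mem_filter, mem_Ioc] at hn
      refine ⟨n, ?_, hn.2⟩
      rw [mem_Icc]
      have h3 : 2 * y ≤ x := by exact_mod_cast h2yx
      omega
    exact_mod_cast card_le_card hsub
  · -- large k
    intro δ ε M hδ hδ1 hε hM
    have hff := floor_facts δ hδ hδ1
    obtain ⟨B, hB⟩ : ∃ B : ℝ, B = M * C * (4 / (1 - δ)) := ⟨_, rfl⟩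
    have h1δ : 0 < 1 - δ := by linarith
    have hBpos : 0 < B := by rw [hB]; positivity
    have hTH : Tendsto (fun x : ℕ => (x : ℝ) ^ (1 - δ)) atTop atTop :=
      (tendsto_rpow_atTop h1δ).comp tendsto_natCast_atTop_atTop
    -- (1 + ε) log (B t) ≤ ε t
    have hlogs : ∀ᶠ t : ℝ in atTop, (1 + ε) * Real.log (B * t) ≤ ε * t := by
      have h1 := Real.isLittleO_log_id_atTop.bound (show (0 : ℝ) < ε / (2 * (1 + ε)) by positivity)
      filter_upwards [h1, eventually_ge_atTop 1, eventually_ge_atTop (2 * (1 + ε) * Real.log B / ε)] with t h2 h3 h4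
      have htpos : 0 < t := by linarith
      rw [Real.norm_eq_abs, Real.norm_eq_abs, id, abs_of_nonneg (Real.log_nonneg h3), abs_of_nonneg htpos.le] at h2
      rw [Real.log_mul hBpos.ne' htpos.ne']
      rw [div_le_iff₀ hε] at h4
      have h5 : (1 + ε) * Real.log t ≤ ε / 2 * t := by
        calc (1 + ε) * Real.log t ≤ (1 + ε) * (ε / (2 * (1 + ε)) * t) := mul_le_mul_of_nonneg_left h2 (by linarith)
          _ = ε / 2 * t := by field_simp
      linarith
    filter_upwards [hff, tL.eventually_ge_atTop 2, tLL.eventually_ge_atTop 1, tLL.eventually hlogs,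
      hTH.eventually_ge_atTop ((max H2 3 : ℕ) + 1 : ℝ), eventually_ge_atTop 3] with x hf hL2 hLL hlg hxH hx3
    obtain ⟨hf1, hf2, hf3, hf4⟩ := hf
    intro k hkx hkL
    obtain ⟨H, hH⟩ : ∃ H, H = ⌊(x : ℝ) ^ (1 - δ)⌋₊ := ⟨_, rfl⟩
    rw [← hH] at hf1 hf2 hf3 hkL ⊢
    have hxr : (3 : ℝ) ≤ x := by exact_mod_cast hx3
    obtain ⟨L, hLd⟩ : ∃ L, L = Real.log (x : ℝ) := ⟨_, rfl⟩
    rw [← hLd] at hL2 hLL hkx hf2 hf3 hlg
    have hLpos : 0 < L := by linarith
    have hLLpos : 0 < Real.log L := by linarith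
    have hHH : max H2 3 ≤ H := by
      have : ((max H2 3 : ℕ) : ℝ) ≤ H := by linarith
      exact_mod_cast this
    have hres := hup' k H x hHH hkL
    have hlogH : 0 < Real.log H := lt_of_lt_of_le (by positivity) hf2
    have hlk0 : 0 < Real.log ((k : ℝ) + 2) := Pool.Agent.Q160.GK.log_two_add k
    have hlk : Real.log ((k : ℝ) + 2) ≤ 2 * Real.log L := by
      rw [← Real.log_rpow hLpos, Real.rpow_two]
      refine Real.log_le_log (by positivity) ?_
      have : (k : ℝ) ≤ L := hkL.trans hf3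
      nlinarith
    have hbase : M * (C * (Real.log (k + 2) / Real.log H)) ≤ B * Real.log L / L := by
      have h1 : Real.log (k + 2) / Real.log H ≤ (2 * Real.log L) / ((1 - δ) / 2 * L) :=
        div_le_div₀ (by positivity) hlk (by positivity) hf2
      calc M * (C * (Real.log (k + 2) / Real.log H)) ≤ M * (C * ((2 * Real.log L) / ((1 - δ) / 2 * L))) := by
            refine mul_le_mul_of_nonneg_left (mul_le_mul_of_nonneg_left h1 hCpos.le) hM.le
        _ = B * Real.log L / L := by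
            rw [hB]
            field_simp
            norm_num
    have hpow : (B * Real.log L / L) ^ k * x ≤ 1 := by
      have h1 : (B * Real.log L / L) ^ k = Real.exp (k * (Real.log (B * Real.log L) - Real.log L)) := by
        rw [← Real.log_div (by positivity) hLpos.ne', Real.exp_nat_mul, Real.exp_log (by positivity)]
      have h2 : (x : ℝ) = Real.exp L := by rw [hLd, Real.exp_log (by linarith)]
      rw [h1, h2, ← Real.exp_add]
      refine Real.exp_le_one_iff.2 ?_
      have h3 : Real.log (B * Real.log L) - Real.log L ≤ -(1 / (1 + ε) * Real.log L) := by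
        have h4 : Real.log (B * Real.log L) ≤ ε / (1 + ε) * Real.log L := by
          rw [div_mul_eq_mul_div, le_div_iff₀ (by linarith)]
          linarith
        have h5 : ε / (1 + ε) * Real.log L - Real.log L = -(1 / (1 + ε) * Real.log L) := by
          field_simp
          ring
        linarith
      have h4 : (k : ℝ) * (Real.log (B * Real.log L) - Real.log L) ≤ k * (-(1 / (1 + ε) * Real.log L)) :=
        mul_le_mul_of_nonneg_left h3 (by positivity)
      have h5 : L ≤ k * (1 / (1 + ε) * Real.log L) := by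
        calc L = (1 + ε) * (L / Real.log L) * (1 / (1 + ε) * Real.log L) := by field_simp
          _ ≤ k * (1 / (1 + ε) * Real.log L) := mul_le_mul_of_nonneg_right hkx (by positivity)
      linarith
    calc M ^ k * (((powersetCard k (range (H + 1))).filter (fun A => Shifted A x)).card : ℝ)
        ≤ M ^ k * (x * (C * (Real.log (k + 2) / Real.log H)) ^ k * ((adm k H).card : ℝ)) :=
          mul_le_mul_of_nonneg_left hres (by positivity)
      _ = ((M * (C * (Real.log (k + 2) / Real.log H))) ^ k * x) * ((adm k H).card : ℝ) := by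
          rw [mul_pow]
          ring
      _ ≤ 1 * ((adm k H).card : ℝ) := by
          refine mul_le_mul_of_nonneg_right (le_trans ?_ hpow) (by positivity)
          refine mul_le_mul_of_nonneg_right (pow_le_pow_left₀ (by positivity) hbase k) (by positivity)
      _ = ((adm k H).card : ℝ) := one_mul _

end Pool.Agent.Results.MP_f686a1_nt.GrowingAdmissibleSets
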