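import Pool.Agent.Q117.LF.Main3
import Pool.Agent.Q117.LF.Cnt
import Pool.Agent.Q117.LF.T44

/-!
MP_f686a1_nt (uniform prime `k`-tuples with shifts below `x`): EVERY admissible set of at most `k` shifts up to `X`: a prime, a product of at most two
primes, and almost primes, all of them isolated.
-/

set_option autoImplicit false

namespace Pool.Agent.Results.MP_f686a1_nt.IsolatedAllTuples

/-- the scale of Rankin -/
noncomputable def R (X : ℝ) : ℝ :=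
  Real.log X * Real.log (Real.log X) * Real.log (Real.log (Real.log (Real.log X))) / (Real.log (Real.log (Real.log X))) ^ 2

/-- all prime factors of `m` are `> z` (so `0` is not rough) -/
def Rough (z : ℝ) (m : ℤ) : Prop := ∀ p : ℕ, p.Prime → (p : ℤ) ∣ m → z < p

/-- at most two prime factors (with multiplicity), all `> z` -/
def AtMostTwo (z : ℝ) (m : ℤ) : Prop := m.natAbs.primeFactorsList.length ≤ 2 ∧ Rough z m

/-- no prime divides one of the numbers `n + h`, `h ∈ H`, for every `n` -/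
def Admissible (H : Finset ℕ) : Prop := ∀ p : ℕ, p.Prime → ∃ r : ℕ, ∀ h ∈ H, ¬ p ∣ r + h

/-- all the numbers `n + h + s` with `h ∈ H`, `|s| ≤ c R X` if `h = h₀` and `|s| ≤ c log X` otherwise, which are not one of the `n + h'`, `h' ∈ H`,
have a prime factor `≤ log X`, except possibly if `s ∈ Z h` -/
def Isolated (X c : ℝ) (H : Finset ℕ) (h₀ : ℕ) (Z : ℕ → Finset ℤ) (n : ℕ) : Prop :=
  ∀ h ∈ H, ∀ s : ℤ, |(s : ℝ)| ≤ (if h = h₀ then c * R X else c * Real.log X) → s ∉ Z h → (∀ h' ∈ H, (h : ℤ) + s ≠ h') →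
    ¬ Rough (Real.log X) ((n : ℤ) + h + s)

/-- the exceptional shifts: fewer than `|H|` for every `h`, and only if some difference `h + s - h'` has very many small prime factors -/
def Exceptional (X c : ℝ) (H : Finset ℕ) (Z : ℕ → Finset ℤ) : Prop :=
  ∀ h ∈ H, (Z h).card < H.card ∧ ∀ s ∈ Z h, ∃ h' ∈ H, h' ≠ h ∧ c * (Real.log X / Real.log (Real.log X)) ≤
    ((((h : ℤ) + s - h').natAbs.primeFactors.filter (fun p : ℕ => (p : ℝ) ≤ Real.log X)).card : ℝ)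

/-- the `n ∈ (X, 2X]` with `n + h₁` prime, `n + h₂` with at most two prime factors, all the `n + h` without prime factors `≤ X ^ (1/t)`, isolated -/
def Tuples (t : ℕ) (X c : ℝ) (H : Finset ℕ) (h₁ h₂ h₀ : ℕ) (Z : ℕ → Finset ℤ) : Set ℕ :=
  {n : ℕ | X < n ∧ (n : ℝ) ≤ 2 * X ∧ (n + h₁).Prime ∧ AtMostTwo (X ^ (1 / 8 : ℝ)) ((n : ℤ) + h₂) ∧
    (∀ h ∈ H, Rough (X ^ (1 / (t : ℝ))) ((n : ℤ) + h)) ∧ Isolated X c H h₀ Z n}

theorem result : ∀ k : ℕ, ∃ t : ℕ, 1 ≤ t ∧ ∃ c : ℝ, 0 < c ∧ ∃ δ : ℝ, 0 < δ ∧ ∃ X0 : ℝ, ∀ X : ℝ, X0 ≤ X → ∀ H : Finset ℕ,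
    H.card ≤ k → (∀ h ∈ H, (h : ℝ) ≤ X) → Admissible H → ∀ h₁ ∈ H, ∀ h₂ ∈ H, ∀ h₀ ∈ H, h₁ ≠ h₂ →
      (∃ Z : ℕ → Finset ℤ, Exceptional X c H Z ∧ X ^ (99 / 100 : ℝ) ≤ ((Tuples t X c H h₁ h₂ h₀ Z).ncard : ℝ)) ∧
      ((∀ h ∈ H, (h : ℝ) ≤ X ^ δ) → X ^ (99 / 100 : ℝ) ≤ ((Tuples t X c H h₁ h₂ h₀ (fun _ => ∅)).ncard : ℝ)) := by
  intro k
  obtain ⟨t, ht, c, hc, δ, hδ, X0, h⟩ := Pool.Agent.Q117.LF.t44 Pool.Agent.Q117.LF.isoC k
  refine ⟨t, ht, c, hc, δ, hδ, max X0 0, fun X hX H hk hH ha h₁ m₁ h₂ m₂ h₀ m₀ hne => ?_⟩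
  have hX0 : (0 : ℝ) ≤ X := (le_max_right _ _).trans hX
  obtain ⟨⟨Z, hZ, a⟩, b⟩ := h X ((le_max_left _ _).trans hX) H hk hH ha h₁ m₁ h₂ m₂ h₀ m₀ hne
  exact ⟨⟨Z, hZ, Pool.Agent.Q117.LF.cnt hX0 _ _ a⟩, fun hd => Pool.Agent.Q117.LF.cnt hX0 _ _ (b hd)⟩

end Pool.Agent.Results.MP_f686a1_nt.IsolatedAllTuples
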